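import Pool.Agent.Y138.ZO.Main

/-!
# Families of surfaces: semisimplicity on the second cohomology
-/

set_option autoImplicit false

open Module Polynomial

namespace Pool.Agent.Y212.ZS

open Pool.Agent.Y138.ZO

/-- The matrix `F` of Frobenius is semisimple (over a field of characteristic zero: it is
diagonalisable over an algebraic closure). -/
def Semisimple {K : Type*} [Field K] {b : ℕ} (F : Matrix (Fin b) (Fin b) K) : Prop :=
  Module.End.IsSemisimple (Matrix.toLin' F)

/-- The dimension of the eigenspace of `F` for `α` is the multiplicity of `α` as a root of the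
characteristic polynomial. -/
def FullMultiplicity {K : Type*} [Field K] {b : ℕ} (F : Matrix (Fin b) (Fin b) K) (α : K) : Prop :=
  finrank K (Module.End.eigenspace (Matrix.toLin' F) α) = F.charpoly.rootMultiplicity α

/-- Some power of `F` is a nonzero scalar. -/
def ScalarPower {K : Type*} [Field K] {b : ℕ} (F : Matrix (Fin b) (Fin b) K) : Prop :=
  ∃ m : ℕ, 0 < m ∧ ∃ c : K, c ≠ 0 ∧ F ^ m = c • (1 : Matrix (Fin b) (Fin b) K)

theorem fullMultiplicity_of_semisimple {K : Type*} [Field K] {b : ℕ}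
    (F : Matrix (Fin b) (Fin b) K) (h : Semisimple F) (α : K) : FullMultiplicity F α := by
  unfold FullMultiplicity
  unfold Semisimple at h
  have h1 := LinearMap.finrank_maxGenEigenspace_eq (Matrix.toLin' F) α
  rw [Module.End.IsFinitelySemisimple.maxGenEigenspace_eq_eigenspace h.isFinitelySemisimple] at h1
  rw [h1, Matrix.charpoly_toLin']

/-- A matrix with a nonzero scalar power is semisimple, in characteristic zero. -/
theorem semisimple_of_scalarPower {K : Type*} [Field K] [CharZero K] {b : ℕ}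
    (F : Matrix (Fin b) (Fin b) K) (h : ScalarPower F) : Semisimple F := by
  obtain ⟨m, hm, c, hc, h⟩ := h
  unfold Semisimple
  have hsep : (X ^ m - C c : K[X]).Separable :=
    separable_X_pow_sub_C c (by exact_mod_cast hm.ne') hc
  apply Module.End.isSemisimple_of_squarefree_aeval_eq_zero hsep.squarefree
  rw [map_sub, map_pow, aeval_X, aeval_C]
  have h1 : (Matrix.toLin' F) ^ m = Matrix.toLin' (F ^ m) := by
    rw [← Matrix.toLin'_pow]
  rw [h1, h, map_smul, Matrix.toLin'_one, sub_eq_zero]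
  rfl

/-- **Families of surfaces.** -/
theorem main {G P : Type*} [Group G] [TopologicalSpace G] [IsTopologicalGroup G] [CompactSpace G]
    [TotallyDisconnectedSpace G] (D : FrobData G P) {L : Type*}
    (ℓ : L → ℕ) [∀ i, Fact (ℓ i).Prime] (b : ℕ)
    (ρ : ∀ i : L, G →* Matrix (Fin b) (Fin b) ℚ_[ℓ i])
    (hρ : ∀ i, Continuous (ρ i)) (hgeom : ∀ i, IsSemisimpleRep (ρ i) D.geom)
    (a : P → ℕ → ℚ) (ha : ∀ i s m, (ρ i (D.frob s) ^ m).trace = (a s m : ℚ_[ℓ i])) :
    List.TFAE [∀ i, ∃ s, Semisimple (ρ i (D.frob s)),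
      ∃ s, ∀ i, Semisimple (ρ i (D.frob s)),
      ∀ i, IsSemisimpleRep (ρ i) ⊤,
      HasDensity D.q D.d D.deg {s | ∀ i, Semisimple (ρ i (D.frob s)) ∧
        ∀ α, FullMultiplicity (ρ i (D.frob s)) α} 1] ∧
    ((∀ i, ∃ s, ScalarPower (ρ i (D.frob s))) →
      HasDensity D.q D.d D.deg {s | ∀ i, Semisimple (ρ i (D.frob s)) ∧
        ∀ α, FullMultiplicity (ρ i (D.frob s)) α} 1) := by
  have h1 := D.zero_one (R := Unit) ℓ (fun _ => b) (fun _ i => ρ i) (fun _ i => hρ i)
    (fun _ i => hgeom i) (fun _ => a) (fun _ i s m => ha i s m)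
  have e1 : (∀ (_ : Unit) i, ∃ s, Module.End.IsSemisimple (Matrix.toLin' (ρ i (D.frob s)))) ↔
      ∀ i, ∃ s, Semisimple (ρ i (D.frob s)) :=
    ⟨fun h i => h () i, fun h _ i => h i⟩
  have e2 : (∃ s, ∀ (_ : Unit) i, Module.End.IsSemisimple (Matrix.toLin' (ρ i (D.frob s)))) ↔
      ∃ s, ∀ i, Semisimple (ρ i (D.frob s)) :=
    ⟨fun ⟨s, h⟩ => ⟨s, fun i => h () i⟩, fun ⟨s, h⟩ => ⟨s, fun _ i => h i⟩⟩
  have e3 : (∀ (_ : Unit) i, IsSemisimpleRep (ρ i) ⊤) ↔ ∀ i, IsSemisimpleRep (ρ i) ⊤ :=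
    ⟨fun h i => h () i, fun h _ i => h i⟩
  have e4 : {s | ∀ (_ : Unit) i, Module.End.IsSemisimple (Matrix.toLin' (ρ i (D.frob s)))} =
      {s | ∀ i, Semisimple (ρ i (D.frob s)) ∧ ∀ α, FullMultiplicity (ρ i (D.frob s)) α} := by
    ext s
    exact ⟨fun h i => ⟨h () i, fullMultiplicity_of_semisimple _ (h () i)⟩,
      fun h _ i => (h i).1⟩
  simp only [e1, e2, e3, e4] at h1
  refine ⟨h1, fun h => ?_⟩
  exact (h1.out 0 3).1 fun i => by
    obtain ⟨s, hs⟩ := h i
    exact ⟨s, semisimple_of_scalarPower _ hs⟩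

end Pool.Agent.Y212.ZS
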